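import Pool.Agent.helper3.T5.SpecA

set_option autoImplicit false

namespace Pool.Agent.T5

open Finset NumberField Pool.Agent.helper3.FT Pool.Agent.helper47.RA

theorem ASIZ_cast {K : Type} [Field K] [NumberField K] {c : ℤ} (hc : c ≠ 0) : (c : 𝓞 K) ≠ 0 := by
  intro h
  apply hc
  apply QF.int_inj (K := K)
  rw [h]
  push_cast
  rfl

theorem ASIZ_x {K : Type} [Field K] [NumberField K] (Q : QF K) (x : 𝓞 K) (N : ℤ)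
    (hx : x * Q.cj x = (N : 𝓞 K)) : -Q.D * (Q.Y x) ^ 2 ≤ 4 * N := by
  obtain ⟨x1, hx1⟩ := Q.exists_re x
  generalize Q.Y x = y at hx1 ⊢
  rw [hx1, Q.norm_form] at hx
  have h1 := QF.int_inj hx
  have h2 := Q.t_sq
  have h3 := Q.hk
  have h4 : 4 * N = (2 * x1 + Q.t * y) ^ 2 - Q.D * y ^ 2 := by
    rw [← h1, h3]
    linear_combination (-(y ^ 2)) * h2
  rw [h4]
  nlinarith [sq_nonneg (2 * x1 + Q.t * y)]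

theorem ASIZ : ASIZ_stmt := by
  refine ⟨fun K _ _ Q x N hx => ASIZ_x Q x N hx, ?_⟩
  intro K _ _ Q F
  have cj3 : Q.cj F.β ^ 2 * F.γ = (F.Λ : 𝓞 K) ^ 2 * Q.cj F.α := by
    have h := congrArg Q.cj F.e3
    rw [map_mul, map_pow, Q.cj_cj, map_mul, map_pow, Q.cj_int] at h
    exact h
  have cj4 : Q.cj F.γ ^ 2 * Q.cj F.β = (F.Z : 𝓞 K) ^ 2 * Q.cj F.α' := by
    have h := congrArg Q.cj F.e4
    rw [map_mul, map_pow, map_mul, map_pow, Q.cj_int] at h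
    exact h
  have nα : F.α * Q.cj F.α = ((F.Z ^ 5 : ℤ) : 𝓞 K) := by
    apply mul_left_cancel₀ (pow_ne_zero 4 (ASIZ_cast (K := K) F.hΛ))
    push_cast
    calc (F.Λ : 𝓞 K) ^ 4 * (F.α * Q.cj F.α) = ((F.Λ : 𝓞 K) ^ 2 * F.α) * ((F.Λ : 𝓞 K) ^ 2 * Q.cj F.α) := by ring
      _ = (F.β ^ 2 * Q.cj F.γ) * (Q.cj F.β ^ 2 * F.γ) := by rw [F.e3, cj3]
      _ = (F.β * Q.cj F.β) ^ 2 * (F.γ * Q.cj F.γ) := by ring
      _ = (F.Λ : 𝓞 K) ^ 4 * (F.Z : 𝓞 K) ^ 5 := by rw [F.nβ, F.nγ]; ring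
  have nα' : F.α' * Q.cj F.α' = ((F.Λ ^ 5 : ℤ) : 𝓞 K) := by
    apply mul_left_cancel₀ (pow_ne_zero 4 (ASIZ_cast (K := K) F.hZ))
    push_cast
    calc (F.Z : 𝓞 K) ^ 4 * (F.α' * Q.cj F.α') = ((F.Z : 𝓞 K) ^ 2 * F.α') * ((F.Z : 𝓞 K) ^ 2 * Q.cj F.α') := by ring
      _ = (F.γ ^ 2 * F.β) * (Q.cj F.γ ^ 2 * Q.cj F.β) := by rw [F.e4, cj4]
      _ = (F.γ * Q.cj F.γ) ^ 2 * (F.β * Q.cj F.β) := by ring
      _ = (F.Z : 𝓞 K) ^ 4 * (F.Λ : 𝓞 K) ^ 5 := by rw [F.nβ, F.nγ]; ring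
  refine ⟨ASIZ_x Q _ _ ?_, ASIZ_x Q _ _ ?_, ASIZ_x Q _ _ F.nu, ASIZ_x Q _ _ F.nv, ASIZ_x Q _ _ nα, ASIZ_x Q _ _ nα'⟩
  · rw [F.nβ]
    push_cast
    rfl
  · rw [F.nγ]
    push_cast
    rfl

end Pool.Agent.T5
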