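import Pool.Agent.helper3.T5.SpecA

set_option autoImplicit false

namespace Pool.Agent.T5

open Finset NumberField Pool.Agent.helper3.FT Pool.Agent.helper47.RA

theorem ASUR_cast {K : Type} [Field K] [NumberField K] {c : ℤ} (hc : c ≠ 0) : (c : 𝓞 K) ≠ 0 := by
  intro h
  apply hc
  apply QF.int_inj (K := K)
  rw [h]
  push_cast
  rfl

theorem ASUR (hAIST : AIST_stmt) (hAELE : AELE_stmt) (hAIDL : AIDL_stmt) : ASUR_stmt := by
  intro K _ _ Q f t ht hf hdis hZ hL hcop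
  obtain ⟨α, γ, u, v, θ, θ', E⟩ := hAELE K Q f t ht hf hdis hZ.ne' hL.ne'
  obtain ⟨a, L, iα, iγ, pa, pL⟩ := hAIDL K Q f t α γ u v θ θ' ht hf hZ.ne' hL.ne' hcop E
  have hZ' : ((t.2.2.2 : ℤ) : 𝓞 K) ≠ 0 := ASUR_cast hZ.ne'
  have hL' : ((lam t : ℤ) : 𝓞 K) ≠ 0 := ASUR_cast hL.ne'
  have hα : α ≠ 0 := by
    rintro rfl
    have h := E.nα
    rw [zero_mul] at h
    exact mul_ne_zero (pow_ne_zero 2 hZ') hL' h.symm
  have hγ : γ ≠ 0 := by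
    rintro rfl
    have h := E.nγ
    rw [zero_mul] at h
    exact mul_ne_zero hZ' (pow_ne_zero 2 hL') h.symm
  obtain ⟨F, hFa, hFL, hFβ, hFγ⟩ := exists_full_of Q a L α γ hα hγ iα iγ pa pL
  have n1 : F.Z ^ 2 * F.Λ = t.2.2.2 ^ 2 * lam t := by
    apply QF.int_inj (K := K)
    push_cast
    rw [← F.nβ, hFβ, E.nα]
  have n2 : F.Z * F.Λ ^ 2 = t.2.2.2 * lam t ^ 2 := by
    apply QF.int_inj (K := K)
    push_cast
    rw [← F.nγ, hFγ, E.nγ]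
  have hFZ : F.Z = t.2.2.2 := by
    have h1 : F.Z ^ 3 * (F.Z * F.Λ ^ 2) = t.2.2.2 ^ 3 * (F.Z * F.Λ ^ 2) := by
      calc F.Z ^ 3 * (F.Z * F.Λ ^ 2) = (F.Z ^ 2 * F.Λ) ^ 2 := by ring
        _ = (t.2.2.2 ^ 2 * lam t) ^ 2 := by rw [n1]
        _ = t.2.2.2 ^ 3 * (t.2.2.2 * lam t ^ 2) := by ring
        _ = t.2.2.2 ^ 3 * (F.Z * F.Λ ^ 2) := by rw [n2]
    have h2 : F.Z ^ 3 = t.2.2.2 ^ 3 :=
      mul_right_cancel₀ (mul_ne_zero F.hZ (pow_ne_zero 2 F.hΛ)) h1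
    exact (Odd.strictMono_pow (by decide : Odd 3)).injective h2
  have hFΛ : F.Λ = lam t := by
    rw [hFZ] at n1
    exact mul_left_cancel₀ (pow_ne_zero 2 hZ.ne') n1
  have hu : F.u = u := by
    have h := F.e1
    rw [hFβ, hFγ, E.e1, hFΛ] at h
    exact (mul_left_cancel₀ hL' h).symm
  have hv : F.v = v := by
    have h := F.e2
    rw [hFβ, hFγ, E.e2, hFZ] at h
    exact (mul_left_cancel₀ hZ' h).symm
  have hθ : F.α = θ := by
    have h := F.e3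
    rw [hFβ, hFγ, E.e3, hFΛ] at h
    exact (mul_left_cancel₀ (pow_ne_zero 2 hL') h).symm
  have hθ' : F.α' = θ' := by
    have h := F.e4
    rw [hFβ, hFγ, E.e4, hFZ] at h
    exact (mul_left_cancel₀ (pow_ne_zero 2 hZ') h).symm
  have hna : t.2.2.2 = (Ideal.absNorm a : ℤ) := by
    have h := F.na
    rw [hFa, hFZ, abs_of_pos hZ] at h
    exact h.symm
  have hz0 : 0 < Ideal.absNorm a := by
    have : (0 : ℤ) < (Ideal.absNorm a : ℤ) := by rw [← hna]; exact hZ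
    exact_mod_cast this
  have hl : lam t = (lamI a α : ℤ) := by
    have h1 : α * Q.cj α = ((t.2.2.2 ^ 2 * lam t : ℤ) : 𝓞 K) := by
      rw [E.nα]
      push_cast
      rfl
    have h2 := Q.absNorm_eq α _ h1
    rw [abs_of_pos (mul_pos (pow_pos hZ 2) hL)] at h2
    unfold lamI
    rw [Int.natCast_div, h2, Nat.cast_pow, ← hna]
    exact (Int.mul_ediv_cancel_left _ (pow_ne_zero 2 hZ.ne')).symm
  refine ⟨a, α, γ, ⟨⟨F, hFa, hFβ, hFγ, hFZ, hFΛ, ?_, ?_, ?_, ?_⟩, ht, hf, E.yα, E.yγ, hna, hl, hdis⟩⟩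
  · rw [hu]; exact E.yu
  · rw [hv]; exact E.yv
  · rw [hθ]; exact E.yθ
  · rw [hθ']; exact E.yθ'

end Pool.Agent.T5
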