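import Pool.Agent.helper26.T5.SpecB

set_option autoImplicit false

namespace Pool.Agent.helper26.T5

open NumberField Pool.Agent.helper3.FT Pool.Agent.helper47.RA Pool.Agent.T5

variable {K : Type} [Field K] [NumberField K]

theorem L1_Y_neg (Q : QF K) (α : 𝓞 K) : Q.Y (-α) = - Q.Y α := by
  have h := Q.Y_int_mul (-1) α
  have e : ((-1 : ℤ) : 𝓞 K) * α = -α := by
    push_cast
    ring
  rw [e] at h
  rw [h]
  ring

theorem L1_lam_neg (a : Ideal (𝓞 K)) (α : 𝓞 K) : lamI a (-α) = lamI a α := by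
  unfold lamI
  rw [Ideal.span_singleton_neg]

theorem L1_alw_neg (Q : QF K) (p : ℕ) (a : Ideal (𝓞 K)) (α : 𝓞 K) :
    alw Q p a (-α) ↔ alw Q p a α := by
  unfold alw
  rw [L1_Y_neg, L1_lam_neg, dvd_neg]

theorem L1_wt_neg (Q : QF K) (w : ℕ) (a : Ideal (𝓞 K)) (α : 𝓞 K) :
    wt Q w a (-α) = wt Q w a α := by
  unfold Pool.Agent.T5.wt
  refine Finset.prod_congr rfl fun p _ => ?_
  by_cases h : alw Q p a α
  · rw [if_pos h, if_pos ((L1_alw_neg Q p a α).2 h)]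
  · rw [if_neg h, if_neg (fun h' => h ((L1_alw_neg Q p a α).1 h'))]

theorem L1_wt_nonneg (Q : QF K) (w : ℕ) (a : Ideal (𝓞 K)) (α : 𝓞 K) : 0 ≤ wt Q w a α := by
  unfold Pool.Agent.T5.wt
  refine Finset.prod_nonneg fun p hp => ?_
  have hp1 : p.Prime := (Finset.mem_filter.1 hp).2
  have h2 : (1 : ℝ) < p := by exact_mod_cast hp1.one_lt
  have h3 : (0 : ℝ) < (p : ℝ) - 1 := by linarith
  have h4 : (0 : ℝ) ≤ (p : ℝ) / (p - 1) := by positivity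
  split_ifs
  · positivity
  · exact h4
  · exact le_rfl

theorem L1_WW (w : ℕ) : 1 ≤ WW w := by
  unfold WW
  refine Nat.one_le_iff_ne_zero.2 (Finset.prod_ne_zero_iff.2 fun p hp => ?_)
  exact (Finset.mem_filter.1 hp).2.ne_zero

/-- the final inequality -/
theorem L1_num (A S₀ V R δ ρ T s Z : ℝ) (hV : V = Z ^ 2 * s / 2) (hR2 : R ^ 2 = Z ^ 2 * T)
    (hZ : 0 < Z) (hs : 0 < s) (hR : 0 ≤ R) (hδ0 : 0 ≤ δ) (hδ : δ ≤ ρ * R) (hρ0 : 0 ≤ ρ) (hρ : ρ ≤ 1)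
    (hS0 : 0 ≤ S₀) (h1 : V * (2 * A + S₀) ≤ Real.pi * (R + δ) ^ 2)
    (h2 : Real.pi * (R - δ) ^ 2 ≤ V * (2 * A + S₀)) (h3 : V * S₀ ≤ 4 * (R + δ) * (0 + δ)) :
    |A - Real.pi * (T / s)| ≤ 18 * ρ * (T / s) := by
  have hpi := Real.pi_pos
  have hpi4 : Real.pi < 3.15 := Real.pi_lt_d2
  have hV0 : 0 < V := by rw [hV]; positivity
  have hR20 : 0 ≤ R ^ 2 := sq_nonneg R
  have hρR : 0 ≤ ρ * R := mul_nonneg hρ0 hR
  have hVS : 0 ≤ V * S₀ := mul_nonneg hV0.le hS0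
  have hRR : 0 ≤ ρ * R ^ 2 := mul_nonneg hρ0 hR20
  have hρ2 : ρ ^ 2 * R ^ 2 ≤ ρ * R ^ 2 := by
    apply mul_le_mul_of_nonneg_right _ hR20
    nlinarith
  -- upper bounds
  have u1 : (R + δ) ^ 2 ≤ R ^ 2 + 3 * (ρ * R ^ 2) := by
    have : (R + δ) ^ 2 ≤ (R + ρ * R) ^ 2 := by
      apply pow_le_pow_left₀ (by linarith)
      linarith
    have e : (R + ρ * R) ^ 2 = R ^ 2 + 2 * (ρ * R ^ 2) + ρ ^ 2 * R ^ 2 := by ring
    linarith
  have hδR : δ ≤ R := by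
    have : ρ * R ≤ 1 * R := mul_le_mul_of_nonneg_right hρ hR
    linarith
  have u2 : R ^ 2 - 2 * (ρ * R ^ 2) ≤ (R - δ) ^ 2 := by
    have h4 : R * δ ≤ R * (ρ * R) := mul_le_mul_of_nonneg_left hδ hR
    have h5 : R * (ρ * R) = ρ * R ^ 2 := by ring
    nlinarith [sq_nonneg δ]
  have u3 : 4 * (R + δ) * (0 + δ) ≤ 8 * (ρ * R ^ 2) := by
    have h4 : (R + δ) * δ ≤ (2 * R) * (ρ * R) := by
      apply mul_le_mul (by linarith) hδ hδ0 (by linarith)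
    have h5 : (2 * R) * (ρ * R) = 2 * (ρ * R ^ 2) := by ring
    nlinarith
  have w1 : V * (2 * A) ≤ Real.pi * R ^ 2 + 18 * (ρ * R ^ 2) := by
    have h4 : Real.pi * (R + δ) ^ 2 ≤ Real.pi * (R ^ 2 + 3 * (ρ * R ^ 2)) :=
      mul_le_mul_of_nonneg_left u1 hpi.le
    have h5 : V * (2 * A + S₀) = V * (2 * A) + V * S₀ := by ring
    have h6 : Real.pi * (ρ * R ^ 2) ≤ 3.15 * (ρ * R ^ 2) := mul_le_mul_of_nonneg_right hpi4.le hRR
    nlinarith
  have w2 : Real.pi * R ^ 2 - 18 * (ρ * R ^ 2) ≤ V * (2 * A) := by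
    have h4 : Real.pi * (R ^ 2 - 2 * (ρ * R ^ 2)) ≤ Real.pi * (R - δ) ^ 2 :=
      mul_le_mul_of_nonneg_left u2 hpi.le
    have h5 : V * (2 * A + S₀) = V * (2 * A) + V * S₀ := by ring
    have h6 : Real.pi * (ρ * R ^ 2) ≤ 3.15 * (ρ * R ^ 2) := mul_le_mul_of_nonneg_right hpi4.le hRR
    nlinarith
  have hZs : 0 < Z ^ 2 * s := by positivity
  have e1 : V * (2 * A) = Z ^ 2 * s * A := by rw [hV]; ring
  have e2 : Real.pi * R ^ 2 = Z ^ 2 * s * (Real.pi * (T / s)) := by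
    rw [hR2]
    field_simp
  have e3 : 18 * (ρ * R ^ 2) = Z ^ 2 * s * (18 * ρ * (T / s)) := by
    rw [hR2]
    field_simp
  rw [e1, e2, e3] at w1 w2
  rw [abs_le]
  constructor
  · have : Z ^ 2 * s * (Real.pi * (T / s) - 18 * ρ * (T / s)) ≤ Z ^ 2 * s * A := by
      rw [mul_sub]
      exact w2
    have := le_of_mul_le_mul_left this hZs
    linarith
  · have : Z ^ 2 * s * A ≤ Z ^ 2 * s * (Real.pi * (T / s) + 18 * ρ * (T / s)) := by
      rw [mul_add]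
      exact w1
    have := le_of_mul_le_mul_left this hZs
    linarith

theorem l1 (hLEMB : LEMB) (hLBB : LBB) (hLLOC : LLOC) (hLCRT : LCRT) (hLPD : LPD) (hLPS : LPS)
    (hLA3 : LA3) : L1 := by
  classical
  intro K iF iN Q a w ℓ T ρ hD ha ha0 hℓ hT hNE hρ hρ1
  obtain ⟨E, hE1, hE2, hE3, hE4, -⟩ := hLEMB K Q hD
  have hZ0 : Ideal.absNorm a ≠ 0 := by
    rw [Ne, Ideal.absNorm_eq_zero_iff]
    exact ha0
  obtain ⟨e₁, e₂, hB⟩ := hLBB K Q (a ^ 2) hD (pow_ne_zero 2 ha0)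
  obtain ⟨Z, hZ⟩ : ∃ Z : ℝ, Z = (Ideal.absNorm a : ℝ) := ⟨_, rfl⟩
  have hZp : 0 < Z := by
    rw [hZ]
    exact_mod_cast Nat.pos_of_ne_zero hZ0
  obtain ⟨s, hs⟩ : ∃ s : ℝ, s = √|(Q.D : ℝ)| := ⟨_, rfl⟩
  have hsp : 0 < s := by
    rw [hs]
    apply Real.sqrt_pos.2
    rw [abs_pos]
    exact_mod_cast hD.ne
  have hN2 : (Ideal.absNorm (a ^ 2) : ℝ) = Z ^ 2 := by
    rw [map_pow, Nat.cast_pow, hZ]
  have him : ((starRingEnd ℂ) (E e₁) * E e₂).im = (Q.Y (Q.cj e₁ * e₂) : ℝ) * (s / 2) := by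
    rw [← hE3, ← map_mul, hE2, hs]
  have hdet : |(Q.Y (Q.cj e₁ * e₂) : ℝ)| = Z ^ 2 := by
    rw [← hN2]
    have := hB.det
    exact_mod_cast this
  have hcov : cov (E e₁) (E e₂) = Z ^ 2 * s / 2 := by
    unfold cov
    rw [him, abs_mul, hdet, abs_of_pos (by positivity : (0 : ℝ) < s / 2)]
    ring
  have hcov0 : 0 < cov (E e₁) (E e₂) := by
    rw [hcov]
    positivity
  -- coordinates
  have hlp : ∀ q : ℤ × ℤ, lp 0 (E e₁) (E e₂) q = E ((q.1 : 𝓞 K) * e₁ + (q.2 : 𝓞 K) * e₂) := by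
    intro q
    unfold lp
    rw [map_add, map_mul, map_mul, map_intCast, map_intCast]
    ring
  have hinj : ∀ q q' : ℤ × ℤ, (q.1 : 𝓞 K) * e₁ + (q.2 : 𝓞 K) * e₂ =
      (q'.1 : 𝓞 K) * e₁ + (q'.2 : 𝓞 K) * e₂ → q = q' := by
    intro q q' h
    have h1 : ((q.1 - q'.1 : ℤ) : 𝓞 K) * e₁ = ((q'.2 - q.2 : ℤ) : 𝓞 K) * e₂ := by
      push_cast
      linear_combination h
    have h2 : Q.Y (Q.cj e₁ * (((q'.2 - q.2 : ℤ) : 𝓞 K) * e₂)) = 0 := by
      rw [← h1]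
      have e : Q.cj e₁ * (((q.1 - q'.1 : ℤ) : 𝓞 K) * e₁) = ((q.1 - q'.1 : ℤ) : 𝓞 K) * (e₁ * Q.cj e₁) := by
        ring
      obtain ⟨N, hN, -⟩ := Q.exists_norm e₁
      rw [e, Q.Y_int_mul, hN, Q.Y_int, mul_zero]
    have h3 : Q.cj e₁ * (((q'.2 - q.2 : ℤ) : 𝓞 K) * e₂) = ((q'.2 - q.2 : ℤ) : 𝓞 K) * (Q.cj e₁ * e₂) := by
      ring
    rw [h3, Q.Y_int_mul] at h2
    have h4 : Q.Y (Q.cj e₁ * e₂) ≠ 0 := by
      intro h5
      rw [h5, Int.cast_zero, abs_zero] at hdet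
      exact (pow_pos hZp 2).ne hdet
    have h5 : q'.2 - q.2 = 0 := (mul_eq_zero.1 h2).resolve_right h4
    rw [h5] at h1
    have h6 : ((q.1 - q'.1 : ℤ) : 𝓞 K) = 0 := by
      have h7 : ((q.1 - q'.1 : ℤ) : 𝓞 K) * e₁ = 0 := by
        rw [h1]
        simp
      exact (mul_eq_zero.1 h7).resolve_right hB.ne
    have h8 : q.1 - q'.1 = 0 := by exact_mod_cast h6
    exact Prod.ext (by omega) (by omega)
  -- sizes
  have hsl : 0 < √ℓ := Real.sqrt_pos.2 hℓ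
  have hsT : 0 < √T := Real.sqrt_pos.2 hT
  have hv1 : Z * √ℓ ≤ Q.v₁ e₁ := by
    have h1 := hNE e₁ hB.m1 hB.ne
    rw [← hZ] at h1
    have h2 : (Z * √ℓ) ^ 2 ≤ Q.v₁ e₁ ^ 2 := by
      rw [mul_pow, Real.sq_sqrt hℓ.le]
      exact h1.le
    exact abs_le_of_sq_le_sq' h2 (Q.v₁_nonneg _) |>.2
  have hv2 : Q.v₁ e₂ ≤ s * Z / √ℓ := by
    have h1 := hB.red
    rw [hN2, ← hs] at h1
    rw [le_div_iff₀ hsl]
    have h2 : Z * √ℓ * Q.v₁ e₂ ≤ Q.v₁ e₁ * Q.v₁ e₂ :=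
      mul_le_mul_of_nonneg_right hv1 (Q.v₁_nonneg _)
    have h3 : Z * (Q.v₁ e₂ * √ℓ) ≤ Z * (s * Z) := by
      calc Z * (Q.v₁ e₂ * √ℓ) = Z * √ℓ * Q.v₁ e₂ := by ring
        _ ≤ s * Z ^ 2 := h2.trans h1
        _ = Z * (s * Z) := by ring
    exact le_of_mul_le_mul_left h3 hZp
  obtain ⟨d, hd⟩ : ∃ d : ℝ, d = ‖E e₁‖ + ‖E e₂‖ := ⟨_, rfl⟩
  have hd0 : 0 ≤ d := by rw [hd]; positivity
  have hd2 : d ≤ 2 * Q.v₁ e₂ := by
    rw [hd, hE1, hE1]
    linarith [hB.le]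
  obtain ⟨R, hR⟩ : ∃ R : ℝ, R = Z * √T := ⟨_, rfl⟩
  have hR0 : 0 ≤ R := by rw [hR]; positivity
  have hR2 : R ^ 2 = Z ^ 2 * T := by
    rw [hR, mul_pow, Real.sq_sqrt hT.le]
  have hW1 : (1 : ℝ) ≤ (WW w : ℝ) := by exact_mod_cast L1_WW w
  have hρR : ρ * R = 2 * WW w * (s * Z / √ℓ) := by
    rw [hρ, hR, Real.sqrt_mul hℓ.le, ← hs]
    field_simp
  have hδ : WW w * d ≤ ρ * R := by
    rw [hρR]
    calc (WW w : ℝ) * d ≤ WW w * (2 * (s * Z / √ℓ)) := by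
          apply mul_le_mul_of_nonneg_left _ (by linarith)
          linarith
      _ = _ := by ring
  have hρ0 : 0 ≤ ρ := by
    rw [hρ]
    positivity
  have hδR : WW w * d ≤ R := by
    have : ρ * R ≤ 1 * R := mul_le_mul_of_nonneg_right hρ1 hR0
    linarith
  -- weights
  obtain ⟨F, hF⟩ : ∃ F : ℤ → ℤ → ℝ, F = fun (x y : ℤ) => wt Q w a ((x : 𝓞 K) * e₁ + (y : 𝓞 K) * e₂) := ⟨_, rfl⟩
  have hPer : Per (WW w) F := by
    have h1 := hLCRT (pr w) (fun p x y => if alw Q p a ((x : 𝓞 K) * e₁ + (y : 𝓞 K) * e₂) then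
      (if p ∣ Ideal.absNorm a ∧ ¬ (p : ℤ) ∣ Q.D then ((p : ℝ) / (p - 1)) ^ 2 else (p : ℝ) / (p - 1))
      else 0) (fun p hp => (Finset.mem_filter.1 hp).2)
      (fun p hp => by
        have h2 := hLLOC K Q a e₁ e₂ hD ha ha0 hB p (Finset.mem_filter.1 hp).2
        exact ⟨fun x y => by
            have := h2.nn x y
            refine le_of_le_of_eq this ?_
            split_ifs <;> rfl,
          fun x y => by
            have := h2.px x y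
            refine Eq.trans ?_ (this.trans ?_)
            · split_ifs <;> rfl
            · split_ifs <;> rfl,
          fun x y => by
            have := h2.py x y
            refine Eq.trans ?_ (this.trans ?_)
            · split_ifs <;> rfl
            · split_ifs <;> rfl,
          by
            have := h2.mean
            refine Eq.trans ?_ this
            refine Finset.sum_congr rfl fun x _ => Finset.sum_congr rfl fun y _ => ?_
            split_ifs <;> rfl⟩)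
    have h3 : F = fun (x y : ℤ) => ∏ p ∈ pr w, (if alw Q p a ((x : 𝓞 K) * e₁ + (y : 𝓞 K) * e₂) then
      (if p ∣ Ideal.absNorm a ∧ ¬ (p : ℤ) ∣ Q.D then ((p : ℝ) / (p - 1)) ^ 2 else (p : ℝ) / (p - 1))
      else 0) := by
      rw [hF]
      funext x y
      unfold Pool.Agent.T5.wt
      refine Finset.prod_congr rfl fun p _ => ?_
      split_ifs <;> rfl
    rw [h3]
    exact h1
  obtain ⟨hfin, -, -⟩ := hLA3 0 (E e₁) (E e₂) d R hcov0 hd.ge hR0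
  obtain ⟨P₀, hP₀⟩ : ∃ P₀ : Finset (ℤ × ℤ), ∀ q, q ∈ P₀ ↔ ‖lp 0 (E e₁) (E e₂) q‖ ≤ R :=
    ⟨hfin.toFinset, fun q => by rw [Set.Finite.mem_toFinset]; rfl⟩
  obtain ⟨k1, k2⟩ := hLPD (WW w) F (E e₁) (E e₂) d R (L1_WW w) hPer hcov0 hd.ge hR0 P₀ hP₀
  have k2' := k2 hδR
  obtain ⟨g, hg⟩ : ∃ g : ℤ × ℤ → 𝓞 K, g = fun q => (q.1 : 𝓞 K) * e₁ + (q.2 : 𝓞 K) * e₂ := ⟨_, rfl⟩
  have hg' : ∀ q, g q = (q.1 : 𝓞 K) * e₁ + (q.2 : 𝓞 K) * e₂ := fun q => by rw [hg]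
  have hgF : ∀ q : ℤ × ℤ, F q.1 q.2 = wt Q w a (g q) := fun q => by rw [hF, hg']
  have hgneg : ∀ q : ℤ × ℤ, g (-q) = - g q := by
    intro q
    rw [hg', hg', Prod.fst_neg, Prod.snd_neg]
    push_cast
    ring
  have hnorm : ∀ q : ℤ × ℤ, ‖lp 0 (E e₁) (E e₂) q‖ = Q.v₁ (g q) := by
    intro q
    rw [hlp, hE1, hg']
  -- split
  have k3 : ∑ q ∈ P₀, F q.1 q.2 = 2 * (∑ q ∈ P₀.filter (fun q => 0 < Q.Y (g q)), F q.1 q.2) +
      ∑ q ∈ P₀.filter (fun q => Q.Y (g q) = 0), F q.1 q.2 := by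
    have c1 : ∑ q ∈ P₀.filter (fun q => Q.Y (g q) < 0), F q.1 q.2 =
        ∑ q ∈ P₀.filter (fun q => 0 < Q.Y (g q)), F q.1 q.2 := by
      refine Finset.sum_bij (fun q _ => -q) ?_ ?_ ?_ ?_
      · intro q hq
        rw [Finset.mem_filter] at hq ⊢
        constructor
        · rw [hP₀, hnorm, hgneg, Q.v₁_neg, ← hnorm, ← hP₀]
          exact hq.1
        · rw [hgneg, L1_Y_neg]
          have := hq.2
          omega
      · intro q _ q' _ h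
        exact neg_injective h
      · intro q hq
        rw [Finset.mem_filter] at hq
        refine ⟨-q, ?_, neg_neg q⟩
        rw [Finset.mem_filter]
        constructor
        · rw [hP₀, hnorm, hgneg, Q.v₁_neg, ← hnorm, ← hP₀]
          exact hq.1
        · rw [hgneg, L1_Y_neg]
          have := hq.2
          omega
      · intro q _
        rw [hgF, hgF, hgneg, L1_wt_neg]
    have c2 := Finset.sum_filter_add_sum_filter_not P₀ (fun q => 0 < Q.Y (g q)) (fun q => F q.1 q.2)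
    have c3 := Finset.sum_filter_add_sum_filter_not (P₀.filter (fun q => ¬ 0 < Q.Y (g q)))
      (fun q => Q.Y (g q) = 0) (fun q => F q.1 q.2)
    rw [Finset.filter_filter, Finset.filter_filter] at c3
    have c4 : P₀.filter (fun q => ¬ 0 < Q.Y (g q) ∧ Q.Y (g q) = 0) =
        P₀.filter (fun q => Q.Y (g q) = 0) := by
      apply Finset.filter_congr
      intro q _
      constructor
      · exact fun h => h.2
      · exact fun h => ⟨by omega, h⟩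
    have c5 : P₀.filter (fun q => ¬ 0 < Q.Y (g q) ∧ ¬ Q.Y (g q) = 0) =
        P₀.filter (fun q => Q.Y (g q) < 0) := by
      apply Finset.filter_congr
      intro q _
      constructor
      · intro h
        omega
      · intro h
        omega
    rw [c4, c5, c1] at c3
    rw [← c2, ← c3]
    ring
  -- the points on the real line
  have k4 : cov (E e₁) (E e₂) * ∑ q ∈ P₀.filter (fun q => Q.Y (g q) = 0), F q.1 q.2 ≤
      4 * (R + WW w * d) * (0 + WW w * d) := by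
    refine hLPS (WW w) F (E e₁) (E e₂) 1 d R 0 (L1_WW w) hPer hcov0 hd.ge hR0 le_rfl norm_one _ ?_
    intro q hq
    rw [Finset.mem_filter] at hq
    refine ⟨(hP₀ q).1 hq.1, ?_⟩
    rw [map_one, one_mul, hlp, ← hg', hE2, hq.2]
    simp
  have k5 : 0 ≤ ∑ q ∈ P₀.filter (fun q => Q.Y (g q) = 0), F q.1 q.2 :=
    Finset.sum_nonneg fun q _ => hPer.nn _ _
  refine ⟨(P₀.filter (fun q => 0 < Q.Y (g q))).image g, ?_, ?_⟩
  · intro α
    rw [Finset.mem_image]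
    have hmem : ∀ q, Q.v₁ (g q) ≤ R ↔ Q.v₁ (g q) ^ 2 ≤ (Ideal.absNorm a : ℝ) ^ 2 * T := by
      intro q
      rw [← hZ, ← hR2]
      exact (pow_le_pow_iff_left₀ (Q.v₁_nonneg _) hR0 two_ne_zero).symm
    constructor
    · rintro ⟨q, hq, rfl⟩
      rw [Finset.mem_filter, hP₀, hnorm, hmem] at hq
      refine ⟨?_, hq.2, hq.1⟩
      rw [hg']
      exact Ideal.add_mem _ (Ideal.mul_mem_left _ _ hB.m1) (Ideal.mul_mem_left _ _ hB.m2)
    · rintro ⟨h1, h2, h3⟩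
      obtain ⟨x, y, hxy⟩ := hB.sp α h1
      refine ⟨(x, y), ?_, ?_⟩
      · have hgx : g (x, y) = α := by rw [hg', hxy]
        rw [Finset.mem_filter, hP₀, hnorm, hmem, hgx]
        exact ⟨h3, h2⟩
      · rw [hg', hxy]
  · have hsum : ∑ α ∈ (P₀.filter (fun q => 0 < Q.Y (g q))).image g, wt Q w a α =
        ∑ q ∈ P₀.filter (fun q => 0 < Q.Y (g q)), F q.1 q.2 := by
      rw [Finset.sum_image]
      · exact Finset.sum_congr rfl fun q _ => (hgF q).symm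
      · intro q _ q' _ h
        apply hinj
        rw [← hg', ← hg']
        exact h
    rw [hsum, ← hs]
    rw [k3] at k1 k2'
    exact L1_num _ _ _ R (WW w * d) ρ T s Z hcov hR2 hZp hsp hR0 (by positivity) hδ hρ0 hρ1 k5 k1 k2' k4

end Pool.Agent.helper26.T5
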