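import Pool.Agent.helper26.T5.SpecB

set_option autoImplicit false

namespace Pool.Agent.helper26.T5

open NumberField Pool.Agent.helper3.FT Pool.Agent.helper47.RA Pool.Agent.T5

theorem law (hLXW : LXW) (hLPA : LPA) : LAW := by
  intro K iF iN Q a α p ha ha0 hp hα hαa
  have hZ0 : Ideal.absNorm a ≠ 0 := by
    rw [Ne, Ideal.absNorm_eq_zero_iff]
    exact ha0
  have hdvd : a ^ 2 ∣ Ideal.span {α} := by
    rw [Ideal.dvd_iff_le, Ideal.span_singleton_le_iff_mem]
    exact hαa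
  obtain ⟨L, hL⟩ := hdvd
  have hnn : nn α = Ideal.absNorm a ^ 2 * Ideal.absNorm L := by
    unfold nn
    rw [hL, map_mul, map_pow]
  have hlam : lamI a α = Ideal.absNorm L := by
    have h1 : lamI a α = nn α / Ideal.absNorm a ^ 2 := rfl
    rw [h1, hnn]
    exact Nat.mul_div_cancel_left _ (pow_pos (Nat.pos_of_ne_zero hZ0) 2)
  have hkey : p ∣ Ideal.absNorm a → ¬ (p : ℤ) ∣ Q.D → ¬ p ∣ lamI a α → ¬ (p : ℤ) ∣ Q.Y α := by
    intro hpZ hpD hpL hpY
    obtain ⟨N, hN, hN'⟩ := Q.exists_norm α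
    have h2 : (p : ℤ) ∣ N := by
      rw [← dvd_abs, ← hN']
      have h3 : p ∣ Ideal.absNorm (Ideal.span {α}) := by
        have h4 : Ideal.absNorm (Ideal.span {α}) = nn α := rfl
        rw [h4, hnn, pow_two]
        exact (hpZ.mul_right _).mul_right _
      exact_mod_cast h3
    have h5 : (p : 𝓞 K) ∣ α := Q.dvd_of_dvd p hp α N hN hpY h2
    have h6 : Ideal.span {(p : 𝓞 K)} ∣ a ^ 2 * L := by
      rw [← hL, Ideal.dvd_iff_le, Ideal.span_singleton_le_span_singleton]
      exact h5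
    obtain ⟨P, hP⟩ : ∃ P : Ideal (𝓞 K), P = a ⊔ Ideal.span {(p : 𝓞 K)} := ⟨_, rfl⟩
    have hnP : Ideal.absNorm P = p := by
      rw [hP]
      exact hLPA K Q a p ha ha0 hp hpZ
    have hprP : Prime P := h96_prime_of_norm hp hnP
    have hnB : Ideal.absNorm (Q.bar P) = p := by rw [Q.absNorm_bar, hnP]
    have hprB : Prime (Q.bar P) := h96_prime_of_norm hp hnB
    have hne : Q.bar P ≠ P := fun h => hpD ((hLXW K Q P p hp hnP).2.2.1 h)
    have hPP : P * Q.bar P = Ideal.span {(p : 𝓞 K)} := by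
      rw [Q.mul_bar, hnP]
    have hPa : P ∣ a := by
      rw [hP]
      exact Ideal.dvd_iff_le.2 le_sup_left
    have hBP : ¬ Q.bar P ∣ P := by
      intro h
      exact hne (h96_eq_of_dvd h (by rw [hnP]; exact hp.ne_zero) (by rw [hnP, hnB]))
    have hBa : ¬ Q.bar P ∣ a := by
      intro h
      obtain ⟨c, hc⟩ := hPa
      rw [hc] at h
      rcases hprB.dvd_or_dvd h with h | h
      · exact hBP h
      · obtain ⟨e, he⟩ := h
        apply ha p hp
        rw [← hPP, hc, he]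
        exact ⟨e, by ring⟩
    have h7 : Q.bar P ∣ a ^ 2 * L := by
      refine Dvd.dvd.trans ?_ h6
      rw [← hPP]
      exact dvd_mul_left _ _
    rcases hprB.dvd_or_dvd h7 with h | h
    · exact hBa (hprB.dvd_of_dvd_pow h)
    · apply hpL
      rw [hlam, ← hnB]
      exact map_dvd Ideal.absNorm h
  refine ⟨by rw [hnn, hlam], ?_, ?_⟩
  · intro hpZ
    unfold alw
    constructor
    · rintro (⟨-, h⟩ | ⟨-, -, h⟩)
      · exact fun h' => h ⟨hpZ, h'⟩
      · exact h
    · intro h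
      by_cases hpD : (p : ℤ) ∣ Q.D
      · exact Or.inr ⟨hpZ, hpD, h⟩
      · exact Or.inl ⟨hkey hpZ hpD h, fun h' => h h'.2⟩
  · intro hpZ
    unfold alw
    constructor
    · rintro (⟨h, -⟩ | ⟨h, -, -⟩)
      · exact h
      · exact absurd h hpZ
    · intro h
      exact Or.inl ⟨h, fun h' => hpZ h'.1⟩

end Pool.Agent.helper26.T5
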