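import Pool.Agent.helper95.T5.SpecM

/-!
# Row t5:SC1 (MP_16912e_nt): classes of order 5 and primitive ideals
-/

set_option autoImplicit false

namespace Pool.Agent.T5

open Finset NumberField Pool.Agent.helper3.FT Pool.Agent.helper47.RA
open scoped nonZeroDivisors

/-- primitive ideals of order 5 with norm in `(A, Y]` -/
def SC1_S (K : Type) [Field K] [NumberField K] (A Y : ℝ) : Set (Ideal (𝓞 K)) :=
  {a | a ≠ ⊥ ∧ Prim a ∧ (a ^ 5).IsPrincipal ∧ ¬ a.IsPrincipal ∧ A < (Ideal.absNorm a : ℝ) ∧ (Ideal.absNorm a : ℝ) ≤ Y}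

open Classical in
/-- the class of an ideal -/
noncomputable def SC1_cl {K : Type} [Field K] [NumberField K] (a : Ideal (𝓞 K)) : ClassGroup (𝓞 K) :=
  if h : a ≠ ⊥ then ClassGroup.mk0 ⟨a, mem_nonZeroDivisors_of_ne_zero h⟩ else 1

section
variable {K : Type} [Field K] [NumberField K]

theorem SC1_fin (A Y : ℝ) : (SC1_S K A Y).Finite := by
  refine (Ideal.finite_setOfPred_absNorm_le (S := 𝓞 K) ⌊Y⌋₊).subset ?_
  rintro a ⟨-, -, -, -, -, h⟩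
  exact Nat.le_floor h

theorem SC1_card (Y : ℝ) (hY : 0 < Y) (J : ℕ) : (SC1_S K (Y / 2 ^ J) Y).ncard = ∑ j ∈ range J, (IA K (Y / 2 ^ j)).ncard := by
  induction J with
  | zero =>
    have : SC1_S K (Y / 2 ^ 0) Y = ∅ := by
      ext a
      simp only [Set.mem_empty_iff_false, iff_false]
      rintro ⟨-, -, -, -, h1, h2⟩
      rw [pow_zero, div_one] at h1
      linarith
    rw [this]
    simp
  | succ J ih =>
    rw [sum_range_succ, ← ih]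
    have h2 : (0 : ℝ) < 2 ^ J := by positivity
    have h3 : Y / 2 ^ (J + 1) = Y / 2 ^ J / 2 := by
      rw [pow_succ, div_div]
    have h4 : Y / 2 ^ J ≤ Y := div_le_self hY.le (one_le_pow₀ (by norm_num))
    have h5 : 0 < Y / 2 ^ J := div_pos hY h2
    have hU : SC1_S K (Y / 2 ^ (J + 1)) Y = SC1_S K (Y / 2 ^ J) Y ∪ IA K (Y / 2 ^ J) := by
      ext a
      constructor
      · rintro ⟨a1, a2, a3, a4, a5, a6⟩
        rcases lt_or_ge (Y / 2 ^ J) (Ideal.absNorm a : ℝ) with h | h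
        · exact Or.inl ⟨a1, a2, a3, a4, h, a6⟩
        · exact Or.inr ⟨a1, a2, a3, a4, h3 ▸ a5, h⟩
      · rintro (⟨a1, a2, a3, a4, a5, a6⟩ | ⟨a1, a2, a3, a4, a5, a6⟩)
        · refine ⟨a1, a2, a3, a4, ?_, a6⟩
          rw [h3]
          linarith
        · refine ⟨a1, a2, a3, a4, ?_, a6.trans h4⟩
          rw [h3]
          exact a5
    have hdis : Disjoint (SC1_S K (Y / 2 ^ J) Y) (IA K (Y / 2 ^ J)) := by
      rw [Set.disjoint_left]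
      rintro a ⟨-, -, -, -, a5, -⟩ ⟨-, -, -, -, -, b6⟩
      linarith
    have hfin : (IA K (Y / 2 ^ J)).Finite := by
      refine (SC1_fin (K := K) (Y / 2 ^ (J + 1)) Y).subset ?_
      rw [hU]
      exact Set.subset_union_right
    rw [hU, Set.ncard_union_eq hdis (SC1_fin _ _) hfin]

theorem SC1_cl_eq (a : Ideal (𝓞 K)) (h : a ≠ ⊥) : SC1_cl a = ClassGroup.mk0 ⟨a, mem_nonZeroDivisors_of_ne_zero h⟩ := by
  unfold SC1_cl
  rw [dif_pos h]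

theorem SC1_cl_eq' (a : (Ideal (𝓞 K))⁰) : ClassGroup.mk0 a = SC1_cl (a : Ideal (𝓞 K)) := by
  rw [SC1_cl_eq _ (nonZeroDivisors.coe_ne_zero a)]

theorem SC1_cl_mul (a b : Ideal (𝓞 K)) (ha : a ≠ ⊥) (hb : b ≠ ⊥) : SC1_cl (a * b) = SC1_cl a * SC1_cl b := by
  have hab : a * b ≠ ⊥ := mul_ne_zero ha hb
  rw [SC1_cl_eq _ ha, SC1_cl_eq _ hb, SC1_cl_eq _ hab, ← map_mul]
  rfl

theorem SC1_cl_pow (a : Ideal (𝓞 K)) (ha : a ≠ ⊥) (n : ℕ) : SC1_cl (a ^ n) = SC1_cl a ^ n := by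
  have hab : a ^ n ≠ ⊥ := pow_ne_zero n ha
  rw [SC1_cl_eq _ ha, SC1_cl_eq _ hab, ← map_pow]
  rfl

theorem SC1_cl_one (a : Ideal (𝓞 K)) (ha : a ≠ ⊥) : SC1_cl a = 1 ↔ a.IsPrincipal := by
  rw [SC1_cl_eq _ ha]
  exact ClassGroup.mk0_eq_one_iff _

theorem SC1_span_ne (n : ℕ) (hn : n ≠ 0) : Ideal.span {(n : 𝓞 K)} ≠ ⊥ := by
  rw [Ne, Ideal.span_singleton_eq_bot]
  exact_mod_cast hn

theorem SC1_norm_nat (Q : QF K) (n : ℕ) : Ideal.absNorm (Ideal.span {(n : 𝓞 K)}) = n ^ 2 := by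
  have h : (n : 𝓞 K) * Q.cj (n : 𝓞 K) = (((n : ℤ) ^ 2 : ℤ) : 𝓞 K) := by
    rw [map_natCast]
    push_cast
    ring
  have h2 := Q.absNorm_eq (n : 𝓞 K) ((n : ℤ) ^ 2) h
  rw [abs_of_nonneg (by positivity)] at h2
  exact_mod_cast h2

theorem SC1_prim (Q : QF K) : ∀ (m : ℕ) (a : Ideal (𝓞 K)), a ≠ ⊥ → Ideal.absNorm a ≤ m →
    ∃ (r : ℕ) (b : Ideal (𝓞 K)), r ≠ 0 ∧ b ≠ ⊥ ∧ Prim b ∧ a = Ideal.span {(r : 𝓞 K)} * b := by
  intro m
  induction m with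
  | zero =>
    intro a ha hm
    exact absurd (Ideal.absNorm_eq_zero_iff.mp (Nat.le_zero.mp hm)) ha
  | succ m ih =>
    intro a ha hm
    by_cases hp : Prim a
    · refine ⟨1, a, one_ne_zero, ha, hp, ?_⟩
      rw [Nat.cast_one, Ideal.span_singleton_one, ← Ideal.one_eq_top, one_mul]
    · unfold Prim at hp
      push Not at hp
      obtain ⟨q, hq, a', rfl⟩ := hp
      have ha' : a' ≠ ⊥ := by
        rintro rfl
        exact ha (mul_zero _)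
      have hpos : 0 < Ideal.absNorm a' := Nat.pos_of_ne_zero fun h => ha' (Ideal.absNorm_eq_zero_iff.mp h)
      rw [map_mul, SC1_norm_nat Q] at hm
      have hq2 : 4 ≤ q ^ 2 := by
        have := hq.two_le
        nlinarith
      obtain ⟨r, b, hr, hb, hpb, he⟩ := ih a' ha' (by nlinarith)
      refine ⟨q * r, b, mul_ne_zero hq.ne_zero hr, hb, hpb, ?_⟩
      rw [he, ← mul_assoc, Ideal.span_singleton_mul_span_singleton]
      push_cast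
      rfl

omit [NumberField K] in
theorem SC1_uni_aux (n m : ℕ) (hco : Nat.Coprime n m) (b b' : Ideal (𝓞 K)) (hb' : Prim b')
    (h : Ideal.span {(n : 𝓞 K)} * b = Ideal.span {(m : 𝓞 K)} * b') : n = 1 := by
  by_contra hn
  obtain ⟨q, hq, hqn⟩ := Nat.exists_prime_and_dvd hn
  have hqm : Nat.Coprime q m := Nat.Coprime.coprime_dvd_left hqn hco
  have h1 : IsCoprime (q : 𝓞 K) (m : 𝓞 K) := by
    have h2 : IsCoprime (q : ℤ) (m : ℤ) := Nat.isCoprime_iff_coprime.mpr hqm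
    have h3 := h2.map (Int.castRingHom (𝓞 K))
    simpa using h3
  have h4 : IsCoprime (Ideal.span {(q : 𝓞 K)}) (Ideal.span {(m : 𝓞 K)}) :=
    (Ideal.isCoprime_span_singleton_iff _ _).mpr h1
  have h5 : Ideal.span {(q : 𝓞 K)} ∣ Ideal.span {(m : 𝓞 K)} * b' := by
    rw [← h]
    refine Dvd.dvd.mul_right ?_ b
    obtain ⟨c, rfl⟩ := hqn
    refine ⟨Ideal.span {(c : 𝓞 K)}, ?_⟩
    rw [Ideal.span_singleton_mul_span_singleton]
    push_cast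
    rfl
  exact hb' q hq (h4.dvd_of_dvd_mul_left h5)

theorem SC1_uni (n m : ℕ) (hn : n ≠ 0) (b b' : Ideal (𝓞 K)) (hb : Prim b) (hb' : Prim b')
    (h : Ideal.span {(n : 𝓞 K)} * b = Ideal.span {(m : 𝓞 K)} * b') : b = b' := by
  have hg : Nat.gcd n m ≠ 0 := fun h0 => hn (Nat.eq_zero_of_gcd_eq_zero_left h0)
  obtain ⟨g, n', m', hgp, hco, hn', hm'⟩ := Nat.exists_coprime' (m := n) (n := m) (Nat.pos_of_ne_zero hg)
  subst hn' hm'
  have h1 : Ideal.span {(g : 𝓞 K)} * (Ideal.span {(n' : 𝓞 K)} * b) = Ideal.span {(g : 𝓞 K)} * (Ideal.span {(m' : 𝓞 K)} * b') := by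
    rw [← mul_assoc, ← mul_assoc, Ideal.span_singleton_mul_span_singleton, Ideal.span_singleton_mul_span_singleton]
    have e1 : (g : 𝓞 K) * (n' : 𝓞 K) = ((n' * g : ℕ) : 𝓞 K) := by push_cast; ring
    have e2 : (g : 𝓞 K) * (m' : 𝓞 K) = ((m' * g : ℕ) : 𝓞 K) := by push_cast; ring
    rw [e1, e2]
    exact h
  have h2 := mul_left_cancel₀ (SC1_span_ne g hgp.ne') h1
  have h3 := SC1_uni_aux n' m' hco b b' hb' h2
  have h4 := SC1_uni_aux m' n' hco.symm b' b hb h2.symm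
  rw [h3, h4] at h2
  exact mul_left_cancel₀ (SC1_span_ne 1 one_ne_zero) h2

theorem SC1_bar_ne (Q : QF K) (b : Ideal (𝓞 K)) (hb : b ≠ ⊥) : Q.bar b ≠ ⊥ := by
  intro h
  have h1 := Q.mul_bar b
  rw [h] at h1
  have h2 : Ideal.absNorm b ≠ 0 := fun h => hb (Ideal.absNorm_eq_zero_iff.mp h)
  exact SC1_span_ne _ h2 (h1.symm.trans (mul_zero b))

theorem SC1_inj (Q : QF K) (Y : ℝ) (hY : 4 * Y ^ 2 < -(Q.D : ℝ)) (b b' : Ideal (𝓞 K)) (hb : b ≠ ⊥) (hb' : b' ≠ ⊥)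
    (hp : Prim b) (hp' : Prim b') (hn : (Ideal.absNorm b : ℝ) ≤ Y) (hn' : (Ideal.absNorm b' : ℝ) ≤ Y) (hc : SC1_cl b = SC1_cl b') : b = b' := by
  have hbar := SC1_bar_ne Q b' hb'
  have h1 : SC1_cl b' * SC1_cl (Q.bar b') = 1 := by
    rw [← SC1_cl_mul _ _ hb' hbar, SC1_cl_one _ (mul_ne_zero hb' hbar), Q.mul_bar]
    exact ⟨⟨_, rfl⟩⟩
  have h2 : (b * Q.bar b').IsPrincipal := by
    rw [← SC1_cl_one _ (mul_ne_zero hb hbar), SC1_cl_mul _ _ hb hbar, hc, h1]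
  obtain ⟨x, hx⟩ := h2.principal
  have hx' : b * Q.bar b' = Ideal.span {x} := hx
  have h3 : Ideal.absNorm (Ideal.span {x}) = Ideal.absNorm b * Ideal.absNorm b' := by
    rw [← hx', map_mul, Q.absNorm_bar]
  obtain ⟨x1, hx1⟩ := Q.exists_re x
  generalize Q.Y x = y at hx1
  have h4 : x * Q.cj x = ((x1 ^ 2 + Q.t * x1 * y - Q.k * y ^ 2 : ℤ) : 𝓞 K) := by
    rw [hx1]
    exact Q.norm_form x1 y
  have h5 := Q.absNorm_eq x _ h4
  rw [h3] at h5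
  have h6 : 4 * (x1 ^ 2 + Q.t * x1 * y - Q.k * y ^ 2) = (2 * x1 + Q.t * y) ^ 2 - Q.D * y ^ 2 := by
    rw [Q.hk]
    linear_combination (-(y ^ 2)) * Q.t_sq
  have h7 : ((Ideal.absNorm b * Ideal.absNorm b' : ℕ) : ℝ) ≤ Y ^ 2 := by
    push_cast
    rw [pow_two]
    exact mul_le_mul hn hn' (Nat.cast_nonneg _) ((Nat.cast_nonneg _).trans hn)
  have hy : y = 0 := by
    by_contra hy
    have h8 : 1 ≤ y ^ 2 := by
      have : 0 < y ^ 2 := by positivity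
      omega
    have h9 : -Q.D ≤ 4 * |x1 ^ 2 + Q.t * x1 * y - Q.k * y ^ 2| := by
      have h10 := le_abs_self (x1 ^ 2 + Q.t * x1 * y - Q.k * y ^ 2)
      nlinarith [sq_nonneg (2 * x1 + Q.t * y)]
    rw [← h5] at h9
    have h11 : (-(Q.D : ℝ)) ≤ 4 * ((Ideal.absNorm b * Ideal.absNorm b' : ℕ) : ℝ) := by exact_mod_cast h9
    linarith
  have hxi : x = ((x1 : ℤ) : 𝓞 K) := by
    rw [hx1, hy]
    simp
  have h12 : ∃ n : ℕ, Ideal.span {x} = Ideal.span {(n : 𝓞 K)} := by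
    obtain ⟨n, h | h⟩ := Int.eq_nat_or_neg x1
    · exact ⟨n, by rw [hxi, h, Int.cast_natCast]⟩
    · exact ⟨n, by rw [hxi, h, Int.cast_neg, Int.cast_natCast, Ideal.span_singleton_neg]⟩
  obtain ⟨n, h12⟩ := h12
  have h13 : Ideal.span {((Ideal.absNorm b' : ℕ) : 𝓞 K)} * b = Ideal.span {(n : 𝓞 K)} * b' := by
    rw [← h12, ← hx', ← Q.mul_bar b']
    ring
  exact SC1_uni _ _ (fun h => hb' (Ideal.absNorm_eq_zero_iff.mp h)) b b' hp hp' h13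

theorem SC1_norm_ge (a : Ideal (𝓞 K)) (ha : a ≠ ⊥) : (1 : ℝ) ≤ (Ideal.absNorm a : ℝ) := by
  have : 0 < Ideal.absNorm a := Nat.pos_of_ne_zero fun h => ha (Ideal.absNorm_eq_zero_iff.mp h)
  exact_mod_cast this

theorem SC1_image (Q : QF K) (Y : ℝ) (J : ℕ) (hJ : Y < 2 ^ J) : SC1_cl '' (SC1_S K (Y / 2 ^ J) Y) = CLS K Y := by
  have h2 : (0 : ℝ) < 2 ^ J := by positivity
  have h1 : Y / 2 ^ J < 1 := (div_lt_one h2).mpr hJ
  ext c
  constructor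
  · rintro ⟨a, ⟨a1, a2, a3, a4, a5, a6⟩, rfl⟩
    refine ⟨?_, ?_, ⟨a, mem_nonZeroDivisors_of_ne_zero a1⟩, (SC1_cl_eq a a1).symm, a6⟩
    · rw [← SC1_cl_pow a a1, SC1_cl_one _ (pow_ne_zero 5 a1)]
      exact a3
    · rw [Ne, SC1_cl_one _ a1]
      exact a4
  · rintro ⟨h5, hne, a, rfl, haY⟩
    have ha : (a : Ideal (𝓞 K)) ≠ ⊥ := nonZeroDivisors.coe_ne_zero a
    rw [SC1_cl_eq'] at h5 hne ⊢
    obtain ⟨r, b, hr, hb, hpb, he⟩ := SC1_prim Q _ (a : Ideal (𝓞 K)) ha le_rfl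
    have hcl : SC1_cl (a : Ideal (𝓞 K)) = SC1_cl b := by
      rw [he, SC1_cl_mul _ _ (SC1_span_ne r hr) hb, (SC1_cl_one _ (SC1_span_ne r hr)).mpr ⟨⟨_, rfl⟩⟩, one_mul]
    have hnb : (Ideal.absNorm b : ℝ) ≤ Y := by
      refine le_trans ?_ haY
      have h3 : Ideal.absNorm b ≤ Ideal.absNorm (a : Ideal (𝓞 K)) := by
        rw [he, map_mul]
        exact Nat.le_mul_of_pos_left _ (Nat.pos_of_ne_zero fun h => SC1_span_ne r hr (Ideal.absNorm_eq_zero_iff.mp h))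
      exact_mod_cast h3
    rw [hcl] at h5 hne ⊢
    refine ⟨b, ⟨hb, hpb, ?_, ?_, lt_of_lt_of_le h1 (SC1_norm_ge b hb), hnb⟩, rfl⟩
    · rw [← SC1_cl_one _ (pow_ne_zero 5 hb), SC1_cl_pow b hb]
      exact h5
    · rw [← SC1_cl_one _ hb]
      exact hne

end

theorem SC1 : SC1_stmt := by
  intro K _ _ Q _ _ Y J hY hJ
  rw [← SC1_card Y hY J, ← SC1_image Q Y J hJ]
  refine ⟨Set.ncard_image_le (SC1_fin _ _), fun h => ?_⟩
  refine Set.InjOn.ncard_image ?_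
  rintro b ⟨b1, b2, -, -, -, b6⟩ b' ⟨c1, c2, -, -, -, c6⟩ hc
  exact SC1_inj Q Y h b b' b1 c1 b2 c2 b6 c6 hc

end Pool.Agent.T5
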