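import Pool.Agent.helper95.T5.SpecM

/-!
# Row t5:SC2 (MP_16912e_nt): the sum over the discriminants
-/

set_option autoImplicit false

namespace Pool.Agent.T5

open Finset NumberField Pool.Agent.helper3.FT Pool.Agent.helper47.RA

theorem SC2_mem (N : ℝ) (D : ℤ) : D ∈ DN N ↔ (-⌊N⌋ ≤ D ∧ D ≤ -1) ∧ IsFund D ∧ N / 2 < -(D : ℝ) := by
  unfold DN
  simp only [Finset.mem_filter, Finset.mem_Icc]

theorem SC2_le (N : ℝ) (D : ℤ) : -⌊N⌋ ≤ D ↔ -(D : ℝ) ≤ N := by
  rw [neg_le, Int.le_floor]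
  push_cast
  rfl

theorem SC2_disj (N : ℝ) (hN : 0 < N) (n : ℕ) : Set.PairwiseDisjoint (↑(range n) : Set ℕ) (fun i => DN (N / 2 ^ i)) := by
  have key : ∀ i i' : ℕ, i < i' → Disjoint (DN (N / 2 ^ i)) (DN (N / 2 ^ i')) := by
    intro i i' hii
    rw [Finset.disjoint_left]
    intro D h1 h2
    rw [SC2_mem, SC2_le] at h1 h2
    have h3 : N / 2 ^ i' ≤ N / 2 ^ i / 2 := by
      rw [div_div, ← pow_succ]
      exact div_le_div_of_nonneg_left hN.le (by positivity) (pow_le_pow_right₀ (by norm_num) hii)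
    linarith [h1.2.2, h2.1.1]
  intro i _ i' _ hne
  rcases lt_or_gt_of_ne hne with h | h
  · exact key i i' h
  · exact (key i' i h).symm

theorem SC2_aux (N Y : ℝ) (I I' : ℕ) (hN : 1 ≤ N) (hI : N < 2 ^ I) (hI' : 4 * Y ^ 2 * 2 ^ I' ≤ N)
    (F : Finset ℤ) (hF : ∀ D, D ∈ F ↔ (-⌊N⌋ ≤ D ∧ D ≤ -1) ∧ IsFund D) (hv T : ℤ → ℝ)
    (h0 : ∀ D ∈ F, 0 ≤ hv D) (h1 : ∀ D ∈ F, hv D ≤ T D) (h2 : ∀ D ∈ F, 4 * Y ^ 2 < -(D : ℝ) → hv D = T D) :
    ∑ i ∈ range I', ∑ D ∈ DN (N / 2 ^ i), T D ≤ ∑ D ∈ F, hv D ∧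
    ∑ D ∈ F, hv D ≤ ∑ i ∈ range I, ∑ D ∈ DN (N / 2 ^ i), T D := by
  classical
  have hN0 : 0 < N := by linarith
  have hsub : ∀ i : ℕ, DN (N / 2 ^ i) ⊆ F := by
    intro i D hD
    rw [SC2_mem, SC2_le] at hD
    rw [hF, SC2_le]
    exact ⟨⟨hD.1.1.trans (div_le_self hN0.le (one_le_pow₀ (by norm_num))), hD.1.2⟩, hD.2.1⟩
  constructor
  · rw [← Finset.sum_biUnion (SC2_disj N hN0 I')]
    have hsub2 : (range I').biUnion (fun i => DN (N / 2 ^ i)) ⊆ F := by
      intro D hD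
      obtain ⟨i, -, hi⟩ := Finset.mem_biUnion.mp hD
      exact hsub i hi
    calc ∑ D ∈ (range I').biUnion (fun i => DN (N / 2 ^ i)), T D
        = ∑ D ∈ (range I').biUnion (fun i => DN (N / 2 ^ i)), hv D := by
          refine Finset.sum_congr rfl fun D hD => ?_
          obtain ⟨i, hi, hDi⟩ := Finset.mem_biUnion.mp hD
          refine (h2 D (hsub i hDi) ?_).symm
          rw [SC2_mem] at hDi
          refine lt_of_le_of_lt ?_ hDi.2.2
          rw [div_div, ← pow_succ, le_div_iff₀ (by positivity)]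
          refine le_trans ?_ hI'
          refine mul_le_mul_of_nonneg_left ?_ (by positivity)
          exact pow_le_pow_right₀ (by norm_num) (Finset.mem_range.mp hi)
      _ ≤ ∑ D ∈ F, hv D := Finset.sum_le_sum_of_subset_of_nonneg hsub2 fun D hD _ => h0 D hD
  · rw [← Finset.sum_biUnion (SC2_disj N hN0 I)]
    have heq : F = (range I).biUnion (fun i => DN (N / 2 ^ i)) := by
      apply Finset.Subset.antisymm
      · intro D hD
        have hD' := (hF D).mp hD
        rw [SC2_le] at hD'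
        have hD1 : (1 : ℝ) ≤ -(D : ℝ) := by
          have : (D : ℝ) ≤ -1 := by exact_mod_cast hD'.1.2
          linarith
        have hex : ∃ i < I, -(D : ℝ) ≤ N / 2 ^ i ∧ N / 2 ^ (i + 1) < -(D : ℝ) := by
          by_contra hcon
          push Not at hcon
          have hall : ∀ i ≤ I, -(D : ℝ) ≤ N / 2 ^ i := by
            intro i
            induction i with
            | zero =>
              intro _
              rw [pow_zero, div_one]
              exact hD'.1.1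
            | succ i ih =>
              intro hi
              exact hcon i (by omega) (ih (by omega))
          have h3 := hall I le_rfl
          have h4 : N / 2 ^ I < 1 := (div_lt_one (by positivity)).mpr hI
          linarith
        obtain ⟨i, hi, h5, h6⟩ := hex
        refine Finset.mem_biUnion.mpr ⟨i, Finset.mem_range.mpr hi, ?_⟩
        rw [SC2_mem, SC2_le]
        refine ⟨⟨h5, hD'.1.2⟩, hD'.2, ?_⟩
        rw [div_div, ← pow_succ]
        exact h6
      · intro D hD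
        obtain ⟨i, -, hi⟩ := Finset.mem_biUnion.mp hD
        exact hsub i hi
    rw [← heq]
    exact Finset.sum_le_sum h1

theorem SC2 (hSC1 : SC1_stmt) (hSFA : SFA_stmt) : SC2_stmt := by
  classical
  intro h hh N Y I I' J hN hY hI hJ _ hI'
  have hfld : ∀ D : ℤ, IsFund D → D < 0 →
      (h D Y : ℝ) ≤ ∑ j ∈ range J, (cA D (Y / 2 ^ j) : ℝ) ∧
      (4 * Y ^ 2 < -(D : ℝ) → (h D Y : ℝ) = ∑ j ∈ range J, (cA D (Y / 2 ^ j) : ℝ)) := by
    intro D hD hD0
    have hne : Nonempty (Fld D) := hSFA.2.2 D hD hD0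
    have hc : ∀ y : ℝ, cA D y = (IA hne.some.K y).ncard := by
      intro y
      unfold cA
      rw [dif_pos hne]
    have h1 := hh hne.some.K hne.some.fin Y
    rw [hne.some.dK] at h1
    have h2 := hSC1 hne.some.K hne.some.Q hne.some.fin (by rw [hne.some.hD]; exact hD0) Y J hY hJ
    rw [hne.some.hD, ← h1] at h2
    simp only [hc]
    constructor
    · exact_mod_cast h2.1
    · intro h3
      exact_mod_cast h2.2 h3
  have hmem : ∀ D : ℤ, D ∈ (Icc (-⌊N⌋) (-1)).filter IsFund ↔ (-⌊N⌋ ≤ D ∧ D ≤ -1) ∧ IsFund D := by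
    intro D
    rw [Finset.mem_filter, Finset.mem_Icc]
  have hmain := SC2_aux N Y I I' hN hI hI' ((Icc (-⌊N⌋) (-1)).filter IsFund) hmem (fun D => (h D Y : ℝ))
    (fun D => ∑ j ∈ range J, (cA D (Y / 2 ^ j) : ℝ)) (fun D _ => Nat.cast_nonneg _)
    (fun D hD => (hfld D ((hmem D).mp hD).2 (by have := ((hmem D).mp hD).1.2; omega)).1)
    (fun D hD => (hfld D ((hmem D).mp hD).2 (by have := ((hmem D).mp hD).1.2; omega)).2)
  have hcomm : ∀ i : ℕ, ∑ j ∈ range J, ∑ D ∈ DN (N / 2 ^ i), (cA D (Y / 2 ^ j) : ℝ) =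
      ∑ D ∈ DN (N / 2 ^ i), ∑ j ∈ range J, (cA D (Y / 2 ^ j) : ℝ) := fun i => Finset.sum_comm
  simp only [hcomm]
  exact hmain

end Pool.Agent.T5
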